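import Mathlib

set_option autoImplicit false
open MeasureTheory Set Filter Topology
open scoped ENNReal InnerProductSpace

namespace Pool.Agent.Results.MP_977787_an.NoRegularChoice

/-- The space `L²(ℝ)` of complex-valued functions, for Lebesgue measure. -/
def H : Type := Lp ℂ 2 (volume : Measure ℝ)

noncomputable instance hNorm : NormedAddCommGroup H := Lp.instNormedAddCommGroup

noncomputable instance hSpace : NormedSpace ℂ H := Lp.instNormedSpace

/-- The function on `ℝ` (defined up to null sets) given by an element of `L²(ℝ)`. -/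
noncomputable def H.fn (f : H) : ℝ → ℂ := @AEEqFun.cast ℝ ℂ _ volume _ f.1

/-- Bounded linear operators on `L²(ℝ)`. -/
abbrev Op : Type := H →L[ℂ] H

/-- `‖A f‖_∞ ≤ C ‖f‖_1` for all `f` in `L²` (the right-hand side being infinite off `L¹`): for
`C < ∞` this says that `A` is bounded from `L¹` to `L^∞` with norm at most `C`. -/
def SupBounded (A : Op) (C : ℝ≥0∞) : Prop :=
  ∀ f : H, eLpNorm (A f).fn ∞ volume ≤ C * eLpNorm f.fn 1 volume

/-- The inner product of `L²(ℝ)`. -/
noncomputable def ip (f g : H) : ℂ := ∫ x, (starRingEnd ℂ) (f.fn x) * g.fn x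

/-- `A` is a special `k`-Hadamard operator on `ℝ`: it is bounded from `L¹` to `L^∞` with norm at most
one, it is bounded and invertible on `L²` with inverse `B`, its adjoint `A'` is `k B = k A⁻¹`, and
`A'` is bounded from `L¹` to `L^∞`. -/
def IsSpecialHadamard (k : ℝ) (A : Op) : Prop :=
  SupBounded A 1 ∧ ∃ B A' : Op, (∀ f, A (B f) = f) ∧ (∀ f, B (A f) = f) ∧
    (∀ f g, ip (A f) g = ip f (A' g)) ∧ (∀ f, A' f = (k : ℂ) • B f) ∧
    ∃ C : ℝ≥0∞, C ≠ ∞ ∧ SupBounded A' C

/-- The `L^p` norm of a function on `ℝ`, as a real number. -/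
noncomputable def nrm (p : ℝ) (f : ℝ → ℂ) : ℝ := (eLpNorm f (ENNReal.ofReal p) volume).toReal

/-- The quotient `F_{p,2}(f) = ‖f‖_p ‖Af‖_p / (‖f‖_2 ‖Af‖_2)`. -/
noncomputable def quotient (A : Op) (p : ℝ) (f : H) : ℝ :=
  (nrm p f.fn * nrm p (A f).fn) / (nrm 2 f.fn * nrm 2 (A f).fn)

/-- `C` is admissible for `(A, p)`. -/
def Admissible (A : Op) (p C : ℝ) : Prop :=
  0 < C ∧ ∀ f : H, f ≠ 0 → MemLp f.fn (ENNReal.ofReal p) volume →
    MemLp (A f).fn (ENNReal.ofReal p) volume → C ≤ quotient A p f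

/-- `A` has a regular choice of admissible constants near `p = 2`, as asked for in the problem. -/
def HasRegularChoice (A : Op) : Prop :=
  ∃ (σ : ℝ) (C : ℝ → ℝ), 0 < σ ∧ σ ≤ 1 ∧ (∀ p ∈ Ioc (2 - σ) 2, Admissible A p (C p)) ∧
    C 2 = 1 ∧ Tendsto C (𝓝[<] 2) (𝓝 1) ∧ DifferentiableOn ℝ C (Ioo (2 - σ) 2) ∧
    StrictAntiOn C (Ioo (2 - σ) 2)

/-- the Hilbert space `L²(ℝ)`, in unfolded form -/
abbrev E : Type := Lp ℂ 2 (volume : Measure ℝ)

/-- the unit interval `(j, j+1]` -/
def Q (j : ℤ) : Set ℝ := Ioc (j : ℝ) (j + 1)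

/-- the exponential `x ↦ exp(2π i m x)` -/
noncomputable def em (m : ℤ) (x : ℝ) : ℂ := Complex.exp (2 * Real.pi * Complex.I * m * x)

theorem norm_em (m : ℤ) (x : ℝ) : ‖em m x‖ = 1 := by
  unfold em
  rw [show 2 * (Real.pi : ℂ) * Complex.I * m * x = ((2 * Real.pi * m * x : ℝ) : ℂ) * Complex.I by
    push_cast; ring]
  exact Complex.norm_exp_ofReal_mul_I _

theorem continuous_em (m : ℤ) : Continuous (em m) := by
  unfold em
  fun_prop

theorem conj_em (m : ℤ) (x : ℝ) : (starRingEnd ℂ) (em m x) = em (-m) x := by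
  unfold em
  rw [← Complex.exp_conj]
  congr 1
  rw [show 2 * (Real.pi : ℂ) * Complex.I * m * x = ((2 * Real.pi * m * x : ℝ) : ℂ) * Complex.I by
    push_cast; ring, map_mul, Complex.conj_ofReal, Complex.conj_I]
  push_cast
  ring

theorem em_mul (m k : ℤ) (x : ℝ) : em m x * em k x = em (m + k) x := by
  unfold em
  rw [← Complex.exp_add]
  congr 1
  push_cast
  ring

/-- the functions `1_{(j,j+1]} exp(2π i m x)` -/
noncomputable def ex (i : ℤ × ℤ) : ℝ → ℂ := (Q i.1).indicator (em i.2)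

theorem measurableSet_Q (j : ℤ) : MeasurableSet (Q j) := measurableSet_Ioc

theorem volume_Q (j : ℤ) : volume (Q j) = 1 := by
  unfold Q
  rw [Real.volume_Ioc]
  simp

theorem memLp_ex (i : ℤ × ℤ) (p : ℝ≥0∞) : MemLp (ex i) p volume := by
  unfold ex
  rw [memLp_indicator_iff_restrict (measurableSet_Q _)]
  have : IsFiniteMeasure (volume.restrict (Q i.1)) := ⟨by
    rw [Measure.restrict_apply_univ, volume_Q]; exact ENNReal.one_lt_top⟩
  refine MemLp.of_bound (continuous_em _).aestronglyMeasurable 1 ?_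
  exact Eventually.of_forall fun x => (norm_em _ x).le

/-- the functions as elements of `L²` -/
noncomputable def v (i : ℤ × ℤ) : E := (memLp_ex i 2).toLp

theorem inner_v (i : ℤ × ℤ) (f : E) : ⟪v i, f⟫_ℂ = ∫ x in Q i.1, em (-i.2) x * f x := by
  rw [L2.inner_def, ← integral_indicator (measurableSet_Q _)]
  refine integral_congr_ae ?_
  filter_upwards [(memLp_ex i 2).coeFn_toLp] with x hx
  rw [v, hx, RCLike.inner_apply]
  unfold ex
  by_cases h : x ∈ Q i.1
  · rw [indicator_of_mem h, indicator_of_mem h, conj_em, mul_comm]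
  · rw [indicator_of_notMem h, indicator_of_notMem h]
    simp

theorem norm_inner_v (i : ℤ × ℤ) (f : E) : ‖⟪v i, f⟫_ℂ‖ ≤ ∫ x in Q i.1, ‖f x‖ := by
  rw [inner_v]
  refine (norm_integral_le_integral_norm _).trans (le_of_eq ?_)
  refine integral_congr_ae (Eventually.of_forall fun x => ?_)
  simp only
  rw [norm_mul, norm_em, one_mul]

theorem integral_em (j m : ℤ) : ∫ x in Q j, em m x = if m = 0 then 1 else 0 := by
  unfold Q
  rw [← intervalIntegral.integral_of_le (by linarith)]
  split_ifs with h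
  · subst h
    simp [em]
  · unfold em
    have hc : (2 * (Real.pi : ℂ) * Complex.I * m) ≠ 0 := by
      simp [Real.pi_ne_zero, h]
    rw [integral_exp_mul_complex hc]
    have : Complex.exp (2 * Real.pi * Complex.I * m * ((j : ℝ) + 1 : ℝ))
        = Complex.exp (2 * Real.pi * Complex.I * m * (j : ℝ)) := by
      rw [show 2 * (Real.pi : ℂ) * Complex.I * m * ((j : ℝ) + 1 : ℝ)
        = 2 * Real.pi * Complex.I * m * (j : ℝ) + m * (2 * Real.pi * Complex.I) by push_cast; ring]
      exact Complex.exp_periodic.int_mul m _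
    rw [this, sub_self, zero_div]

theorem orthonormal_v : Orthonormal ℂ v := by
  rw [orthonormal_iff_ite]
  intro i k
  rw [inner_v]
  have h1 : ∫ x in Q i.1, em (-i.2) x * (v k) x = ∫ x in Q i.1, em (-i.2) x * ex k x := by
    refine integral_congr_ae (ae_restrict_of_ae ?_)
    filter_upwards [(memLp_ex k 2).coeFn_toLp] with x hx
    rw [v, hx]
  rw [h1]
  by_cases h : i.1 = k.1
  · have h2 : ∫ x in Q i.1, em (-i.2) x * ex k x = ∫ x in Q i.1, em (k.2 - i.2) x := by
      refine setIntegral_congr_fun (measurableSet_Q _) (fun x hx => ?_)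
      unfold ex
      rw [← h, indicator_of_mem hx, em_mul]
      congr 1
      ring
    rw [h2, integral_em]
    by_cases h3 : i = k
    · subst h3
      simp
    · rw [if_neg h3, if_neg]
      intro h4
      exact h3 (Prod.ext h (by linarith))
  · have h2 : ∫ x in Q i.1, em (-i.2) x * ex k x = 0 := by
      refine setIntegral_eq_zero_of_forall_eq_zero (fun x hx => ?_)
      unfold ex
      rw [indicator_of_notMem, mul_zero]
      intro hx'
      apply h
      have e1 : ((i.1 : ℤ) : ℝ) < k.1 + 1 := hx.1.trans_le hx'.2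
      have e2 : ((k.1 : ℤ) : ℝ) < i.1 + 1 := hx'.1.trans_le hx.2
      have e3 : i.1 < k.1 + 1 := by exact_mod_cast e1
      have e4 : k.1 < i.1 + 1 := by exact_mod_cast e2
      omega
    rw [h2, if_neg]
    rintro rfl
    exact h rfl

theorem v_injective : Function.Injective v := orthonormal_v.linearIndependent.injective

theorem iUnion_Q : ⋃ j : ℤ, Q j = univ := by
  ext x
  simp only [mem_iUnion, mem_univ, iff_true]
  refine ⟨⌈x⌉ - 1, ?_⟩
  unfold Q
  constructor
  · push_cast
    linarith [Int.ceil_lt_add_one x]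
  · push_cast
    linarith [Int.le_ceil x]

theorem eq_zero_of_inner (f : E) (hf : ∀ i, ⟪v i, f⟫_ℂ = 0) : f = 0 := by
  have hae : ∀ j : ℤ, ∀ᵐ x ∂(volume.restrict (Q j)), f x = 0 := by
    intro j
    have hab : (j : ℝ) < j + 1 := by linarith
    have hL2 : MemLp (f : ℝ → ℂ) 2 (volume.restrict (Ioc (j : ℝ) (j + 1))) :=
      (Lp.memLp f).restrict _
    have h := hasSum_sq_fourierCoeffOn hab hL2
    have hc : ∀ m : ℤ, fourierCoeffOn hab f m = 0 := by
      intro m
      rw [fourierCoeffOn_eq_integral]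
      have h2 := hf (j, m)
      rw [inner_v] at h2
      unfold Q at h2
      simp only at h2
      rw [← intervalIntegral.integral_of_le hab.le] at h2
      have h3 : ∫ x in (j : ℝ)..(j + 1), (fourier (-m)) (x : AddCircle ((j : ℝ) + 1 - j)) • f x
          = ∫ x in (j : ℝ)..(j + 1), em (-m) x * f x := by
        refine intervalIntegral.integral_congr (fun x _ => ?_)
        rw [fourier_coe_apply, smul_eq_mul]
        congr 1
        unfold em
        congr 1
        push_cast
        rw [add_sub_cancel_left, div_one]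
      rw [h3, h2, smul_zero]
    simp only [hc, norm_zero, ne_eq, OfNat.ofNat_ne_zero, not_false_eq_true, zero_pow] at h
    have h0 := h.unique hasSum_zero
    rw [add_sub_cancel_left, inv_one, one_smul, intervalIntegral.integral_of_le hab.le] at h0
    have h4 := (integral_eq_zero_iff_of_nonneg_ae (Eventually.of_forall fun x => by positivity)
      (hL2.integrable_norm_pow (by norm_num))).mp h0
    filter_upwards [h4] with x hx
    have : ‖f x‖ ^ 2 = 0 := hx
    simpa using this
  have hall : ∀ᵐ x ∂(volume : Measure ℝ), f x = 0 := by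
    have h := (ae_restrict_iUnion_iff Q (fun x => f x = 0)).mpr hae
    rw [iUnion_Q, Measure.restrict_univ] at h
    exact h
  rw [Lp.eq_zero_iff_ae_eq_zero]
  exact hall

theorem ortho_bot : (Submodule.span ℂ (Set.range v))ᗮ = ⊥ := by
  rw [Submodule.eq_bot_iff]
  intro f hf
  refine eq_zero_of_inner f (fun i => ?_)
  exact (Submodule.mem_orthogonal _ _).mp hf _ (Submodule.subset_span ⟨i, rfl⟩)

/-! ### The operator -/

/-- the Hilbert basis -/
noncomputable def b : HilbertBasis (ℤ × ℤ) ℂ E :=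
  HilbertBasis.mkOfOrthogonalEqBot orthonormal_v ortho_bot

theorem b_apply (i : ℤ × ℤ) : b i = v i := by
  unfold b
  rw [HilbertBasis.coe_mkOfOrthogonalEqBot]

/-- the rotation of the index lattice -/
def rot : ℤ × ℤ ≃ ℤ × ℤ where
  toFun i := (i.2, -i.1)
  invFun i := (-i.2, i.1)
  left_inv i := by simp
  right_inv i := by simp

theorem ortho_bot' : (Submodule.span ℂ (Set.range (v ∘ rot)))ᗮ = ⊥ := by
  rw [rot.surjective.range_comp]
  exact ortho_bot

/-- the rotated Hilbert basis -/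
noncomputable def b' : HilbertBasis (ℤ × ℤ) ℂ E :=
  HilbertBasis.mkOfOrthogonalEqBot (orthonormal_v.comp rot rot.injective) ortho_bot'

theorem b'_apply (i : ℤ × ℤ) : b' i = v (rot i) := by
  unfold b'
  rw [HilbertBasis.coe_mkOfOrthogonalEqBot]
  rfl

/-- the unitary operator mapping one basis to the other -/
noncomputable def U : E ≃ₗᵢ[ℂ] E := b.repr.trans b'.repr.symm

theorem U_v (i : ℤ × ℤ) : U (v i) = v (rot i) := by
  rw [← b_apply, ← b'_apply]
  unfold U
  rw [LinearIsometryEquiv.trans_apply, HilbertBasis.repr_self, HilbertBasis.repr_symm_single]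

theorem hasSum_U (f g : E) :
    HasSum (fun i : ℤ × ℤ => ⟪g, v (rot i)⟫_ℂ * ⟪v i, f⟫_ℂ) ⟪g, U f⟫_ℂ := by
  have h := b'.hasSum_inner_mul_inner g (U f)
  have e : (fun i : ℤ × ℤ => ⟪g, v (rot i)⟫_ℂ * ⟪v i, f⟫_ℂ)
      = fun i => ⟪g, b' i⟫_ℂ * ⟪b' i, U f⟫_ℂ := by
    funext i
    have e1 : ⟪b' i, U f⟫_ℂ = ⟪b i, f⟫_ℂ := by
      rw [← b'.repr_apply_apply, ← b.repr_apply_apply]
      unfold U
      rw [LinearIsometryEquiv.trans_apply, LinearIsometryEquiv.apply_symm_apply]
    rw [e1, b_apply, b'_apply]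
  rw [e]
  exact h

theorem hasSum_Q (f : ℝ → ℂ) (hf : Integrable f) :
    HasSum (fun j : ℤ => ∫ x in Q j, ‖f x‖) (∫ x, ‖f x‖) := by
  have hd : Pairwise (Function.onFun Disjoint Q) := by
    intro j k hjk
    refine Set.disjoint_left.mpr (fun x hx hx' => ?_)
    have e1 : ((j : ℤ) : ℝ) < k + 1 := hx.1.trans_le hx'.2
    have e2 : ((k : ℤ) : ℝ) < j + 1 := hx'.1.trans_le hx.2
    have e3 : j < k + 1 := by exact_mod_cast e1
    have e4 : k < j + 1 := by exact_mod_cast e2
    omega
  have h := hasSum_integral_iUnion (μ := volume) (f := fun x => ‖f x‖) measurableSet_Q hd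
    hf.norm.integrableOn
  rwa [iUnion_Q, Measure.restrict_univ] at h

theorem dual_bound (f g : E) (hf : Integrable f) (hg : Integrable g) :
    ‖⟪g, U f⟫_ℂ‖ ≤ (∫ x, ‖f x‖) * ∫ x, ‖g x‖ := by
  have hF := hasSum_Q f hf
  have hG := hasSum_Q g hg
  have hs : Summable fun x : ℤ × ℤ => (∫ y in Q x.1, ‖f y‖) * ∫ y in Q x.2, ‖g y‖ :=
    hF.summable.mul_of_nonneg hG.summable (fun j => integral_nonneg fun _ => norm_nonneg _)
      (fun j => integral_nonneg fun _ => norm_nonneg _)
  refine (hasSum_U f g).norm_le_of_bounded (hF.mul hG hs) (fun i => ?_)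
  rw [norm_mul, mul_comm]
  refine mul_le_mul (norm_inner_v i f) ?_ (norm_nonneg _)
    (integral_nonneg fun _ => norm_nonneg _)
  rw [norm_inner_symm]
  exact norm_inner_v (rot i) g

theorem linfty_of_dual (h : E) (M : ℝ)
    (hM : ∀ g : E, Integrable g → ‖⟪g, h⟫_ℂ‖ ≤ M * ∫ x, ‖g x‖) (hM0 : 0 ≤ M) :
    eLpNorm h ∞ volume ≤ ENNReal.ofReal M := by
  have hfin : ∀ s, MeasurableSet s → volume s < ∞ → IntegrableOn (fun x => ‖h x‖) s volume := by
    intro s _ hs2
    have : IsFiniteMeasure (volume.restrict s) := ⟨by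
      rw [Measure.restrict_apply_univ]; exact hs2⟩
    have h1 : MemLp (h : ℝ → ℂ) 2 (volume.restrict s) := (Lp.memLp h).restrict _
    exact (h1.integrable (by norm_num)).norm
  have key : 0 ≤ᵐ[volume] fun x => M - ‖h x‖ := by
    refine ae_nonneg_of_forall_setIntegral_nonneg_of_sigmaFinite ?_ ?_
    · intro s hs1 hs2
      refine Integrable.sub ?_ (hfin s hs1 hs2)
      exact integrableOn_const hs2.ne
    · intro s hs1 hs2
      have hfinm : IsFiniteMeasure (volume.restrict s) := ⟨by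
        rw [Measure.restrict_apply_univ]; exact hs2⟩
      set g0 : ℝ → ℂ := s.indicator (fun x => h x / ‖h x‖) with hg0
      have hg0m : ∀ p : ℝ≥0∞, MemLp g0 p volume := by
        intro p
        rw [hg0, memLp_indicator_iff_restrict hs1]
        refine MemLp.of_bound ?_ 1 (Eventually.of_forall fun x => ?_)
        · have hsm := Lp.stronglyMeasurable h
          have : StronglyMeasurable (fun x => h x / (‖h x‖ : ℂ)) := by
            refine StronglyMeasurable.div hsm ?_
            exact Complex.continuous_ofReal.comp_stronglyMeasurable hsm.norm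
          exact this.aestronglyMeasurable
        · by_cases hx : h x = 0
          · simp [hx]
          · have : ‖h x‖ ≠ 0 := norm_ne_zero_iff.mpr hx
            rw [norm_div, Complex.norm_real, norm_norm, div_self this]
      set g : E := (hg0m 2).toLp with hg
      have hgae : g =ᵐ[volume] g0 := (hg0m 2).coeFn_toLp
      have hgi : Integrable g := (memLp_one_iff_integrable.mp (hg0m 1)).congr hgae.symm
      have h1 := hM g hgi
      have h2 : ⟪g, h⟫_ℂ = ((∫ x in s, ‖h x‖ : ℝ) : ℂ) := by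
        rw [L2.inner_def, ← integral_indicator hs1, ← integral_complex_ofReal]
        refine integral_congr_ae ?_
        filter_upwards [hgae] with x hx
        rw [hx, RCLike.inner_apply, hg0]
        by_cases hxs : x ∈ s
        · rw [indicator_of_mem hxs, indicator_of_mem hxs]
          by_cases hx0 : h x = 0
          · simp [hx0]
          · have hne : (‖h x‖ : ℂ) ≠ 0 := by exact_mod_cast norm_ne_zero_iff.mpr hx0
            rw [map_div₀, Complex.conj_ofReal, mul_div_assoc', Complex.mul_conj']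
            field_simp
        · rw [indicator_of_notMem hxs, indicator_of_notMem hxs]
          simp
      have h3 : ∫ x, ‖g x‖ ≤ volume.real s := by
        have e1 : ∫ x, ‖g x‖ = ∫ x in s, ‖h x / (‖h x‖ : ℂ)‖ := by
          rw [← integral_indicator hs1]
          refine integral_congr_ae ?_
          filter_upwards [hgae] with x hx
          rw [hx, hg0]
          by_cases hxs : x ∈ s
          · rw [indicator_of_mem hxs, indicator_of_mem hxs]
          · rw [indicator_of_notMem hxs, indicator_of_notMem hxs, norm_zero]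
        rw [e1]
        have e2 : ∫ x in s, ‖h x / (‖h x‖ : ℂ)‖ ≤ ∫ _ in s, (1 : ℝ) := by
          refine integral_mono_of_nonneg (Eventually.of_forall fun x => norm_nonneg _)
            (integrable_const _) (Eventually.of_forall fun x => ?_)
          by_cases hx : h x = 0
          · simp [hx]
          · have : ‖h x‖ ≠ 0 := norm_ne_zero_iff.mpr hx
            simp only
            rw [norm_div, Complex.norm_real, norm_norm, div_self this]
        refine e2.trans (le_of_eq ?_)
        simp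
      rw [h2, Complex.norm_real, Real.norm_eq_abs,
        abs_of_nonneg (integral_nonneg fun _ => norm_nonneg _)] at h1
      rw [integral_sub (integrable_const _) (hfin s hs1 hs2)]
      have e4 : ∫ _ in s, M = M * volume.real s := by simp [mul_comm]
      rw [e4, sub_nonneg]
      exact h1.trans (mul_le_mul_of_nonneg_left h3 hM0)
  rw [eLpNorm_exponent_top]
  refine eLpNormEssSup_le_of_ae_bound ?_
  filter_upwards [key] with x hx
  have : 0 ≤ M - ‖h x‖ := hx
  linarith

theorem eLpNorm_one_eq (f : ℝ → ℂ) (hf : Integrable f) :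
    eLpNorm f 1 volume = ENNReal.ofReal (∫ x, ‖f x‖) := by
  rw [eLpNorm_one_eq_lintegral_enorm, ofReal_integral_norm_eq_lintegral_enorm hf]

theorem U_bound (f : E) : eLpNorm (U f) ∞ volume ≤ eLpNorm f 1 volume := by
  by_cases h : eLpNorm f 1 volume = ∞
  · rw [h]; exact le_top
  · have hf : Integrable f := memLp_one_iff_integrable.mp
      ⟨(Lp.aestronglyMeasurable f), lt_top_iff_ne_top.mpr h⟩
    rw [eLpNorm_one_eq f hf]
    exact linfty_of_dual _ _ (fun g hg => dual_bound f g hf hg)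
      (integral_nonneg fun _ => norm_nonneg _)

theorem U_symm_bound (f : E) : eLpNorm (U.symm f) ∞ volume ≤ eLpNorm f 1 volume := by
  by_cases h : eLpNorm f 1 volume = ∞
  · rw [h]; exact le_top
  · have hf : Integrable f := memLp_one_iff_integrable.mp
      ⟨(Lp.aestronglyMeasurable f), lt_top_iff_ne_top.mpr h⟩
    rw [eLpNorm_one_eq f hf]
    refine linfty_of_dual _ _ (fun g hg => ?_) (integral_nonneg fun _ => norm_nonneg _)
    have e : ⟪g, U.symm f⟫_ℂ = ⟪U g, f⟫_ℂ := by
      rw [← U.inner_map_map g (U.symm f), U.apply_symm_apply]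
    rw [e, norm_inner_symm, mul_comm]
    exact dual_bound g f hg hf

/-- the special Hadamard operator -/
noncomputable def A (k : ℝ) : E →L[ℂ] E :=
  (Real.sqrt k : ℂ) • (U.toContinuousLinearEquiv : E →L[ℂ] E)

theorem A_apply (k : ℝ) (f : E) : A k f = (Real.sqrt k : ℂ) • U f := rfl

theorem eLpNorm_smul_E (c : ℂ) (f : E) (p : ℝ≥0∞) :
    eLpNorm (c • f : E) p volume = ‖c‖ₑ * eLpNorm f p volume := by
  rw [eLpNorm_congr_ae (Lp.coeFn_smul c f), eLpNorm_const_smul]

theorem ip_eq (f g : E) : ip f g = ⟪f, g⟫_ℂ := by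
  rw [L2.inner_def]
  unfold ip
  refine integral_congr_ae (Eventually.of_forall fun x => ?_)
  change (starRingEnd ℂ) (f x) * g x = ⟪f x, g x⟫_ℂ
  rw [RCLike.inner_apply, mul_comm]

theorem adj_A (k : ℝ) (f g : E) :
    ip (A k f) g = ip f ((Real.sqrt k : ℂ) • U.symm g : E) := by
  rw [A_apply, ip_eq, ip_eq, inner_smul_left, inner_smul_right, Complex.conj_ofReal]
  congr 1
  rw [← U.inner_map_map f (U.symm g), U.apply_symm_apply]

theorem special (k : ℝ) (hk : 0 < k) (hk1 : k ≤ 1) : IsSpecialHadamard k (A k) := by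
  have hs0 : 0 < Real.sqrt k := Real.sqrt_pos.mpr hk
  have hs1 : Real.sqrt k ≤ 1 := Real.sqrt_le_one.mpr hk1
  have hne : (Real.sqrt k : ℂ) ≠ 0 := by exact_mod_cast hs0.ne'
  have hen : ‖(Real.sqrt k : ℂ)‖ₑ ≤ 1 := by
    rw [← ofReal_norm, Complex.norm_real, Real.norm_eq_abs, abs_of_pos hs0]
    exact ENNReal.ofReal_le_one.mpr hs1
  have p1 : ∀ f : E, eLpNorm (A k f) ∞ volume ≤ 1 * eLpNorm f 1 volume := by
    intro f
    rw [A_apply, eLpNorm_smul_E]
    exact mul_le_mul' hen (U_bound f)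
  have p2 : ∀ f : E, A k ((Real.sqrt k : ℂ)⁻¹ • U.symm f) = f := by
    intro f
    rw [A_apply, map_smul, U.apply_symm_apply, smul_smul, mul_inv_cancel₀ hne, one_smul]
  have p3 : ∀ f : E, (Real.sqrt k : ℂ)⁻¹ • U.symm (A k f) = f := by
    intro f
    rw [A_apply, map_smul, U.symm_apply_apply, smul_smul, inv_mul_cancel₀ hne, one_smul]
  have p4 : ∀ f : E, (Real.sqrt k : ℂ) • U.symm f = (k : ℂ) • ((Real.sqrt k : ℂ)⁻¹ • U.symm f) := by
    intro f
    rw [smul_smul]
    congr 1
    rw [eq_mul_inv_iff_mul_eq₀ hne, ← Complex.ofReal_mul, Real.mul_self_sqrt hk.le]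
  have p5 : ∀ f : E, eLpNorm ((Real.sqrt k : ℂ) • U.symm f : E) ∞ volume
      ≤ 1 * eLpNorm f 1 volume := by
    intro f
    rw [eLpNorm_smul_E]
    exact mul_le_mul' hen (U_symm_bound f)
  let B : E →L[ℂ] E := (Real.sqrt k : ℂ)⁻¹ • (U.symm.toContinuousLinearEquiv : E →L[ℂ] E)
  let A' : E →L[ℂ] E := (Real.sqrt k : ℂ) • (U.symm.toContinuousLinearEquiv : E →L[ℂ] E)
  exact ⟨p1, B, A', p2, p3, adj_A k, p4, 1, ENNReal.one_ne_top, p5⟩

/-- the fixed function -/
noncomputable def f0 : E := v (0, 0)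

theorem U_f0 : U f0 = f0 := by
  unfold f0
  rw [U_v]
  rfl

theorem eLpNorm_f0 (p : ℝ) (hp : 0 < p) : eLpNorm f0 (ENNReal.ofReal p) volume = 1 := by
  have h1 : (f0 : ℝ → ℂ) =ᵐ[volume] ex (0, 0) := (memLp_ex (0, 0) 2).coeFn_toLp
  rw [eLpNorm_congr_ae h1]
  have h2 : ex (0, 0) = (Q 0).indicator (fun _ => (1 : ℂ)) := by
    unfold ex
    congr 1
    funext x
    simp [em]
  rw [h2, eLpNorm_indicator_const (measurableSet_Q 0) (by simpa using hp) ENNReal.ofReal_ne_top,
    volume_Q, ENNReal.one_rpow, mul_one]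
  simp

theorem nrm_f0 (p : ℝ) (hp : 0 < p) : nrm p f0 = 1 := by
  unfold nrm
  rw [eLpNorm_f0 p hp]
  simp

theorem quotient_f0 (k : ℝ) (hk : 0 < k) (p : ℝ) (hp : 0 < p) :
    (nrm p f0 * nrm p (A k f0)) / (nrm 2 f0 * nrm 2 (A k f0)) = 1 := by
  have hs0 : 0 < Real.sqrt k := Real.sqrt_pos.mpr hk
  have h : ∀ r : ℝ, 0 < r → nrm r (A k f0) = Real.sqrt k := by
    intro r hr
    unfold nrm
    rw [A_apply, U_f0, eLpNorm_smul_E, eLpNorm_f0 r hr, mul_one, ← ofReal_norm,
      Complex.norm_real, Real.norm_eq_abs, abs_of_pos hs0, ENNReal.toReal_ofReal hs0.le]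
  rw [nrm_f0 p hp, nrm_f0 2 (by norm_num), h p hp, h 2 (by norm_num)]
  field_simp

theorem no_choice (k : ℝ) (hk : 0 < k) : ¬ HasRegularChoice (A k) := by
  rintro ⟨σ, C, hσ, hσ1, hadm, hC2, hlim, hdiff, hanti⟩
  have hp0 : 2 - σ / 2 ∈ Ioo (2 - σ) 2 := ⟨by linarith, by linarith⟩
  have hp1 : 2 - σ / 4 ∈ Ioo (2 - σ) 2 := ⟨by linarith, by linarith⟩
  have h1 : C (2 - σ / 4) < C (2 - σ / 2) := hanti hp0 hp1 (by linarith)
  have h2 : 1 ≤ C (2 - σ / 4) := by
    refine le_of_tendsto hlim ?_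
    have : Ioo (2 - σ / 4) 2 ∈ 𝓝[<] (2 : ℝ) := Ioo_mem_nhdsLT (by linarith)
    filter_upwards [this] with p hp
    exact (hanti hp1 ⟨by linarith [hp.1], hp.2⟩ hp.1).le
  have hpos : 0 < 2 - σ / 2 := by linarith
  have hmem : ∀ f : E, eLpNorm f (ENNReal.ofReal (2 - σ / 2)) volume < ∞ →
      MemLp f (ENNReal.ofReal (2 - σ / 2)) volume := fun f hf => ⟨Lp.aestronglyMeasurable f, hf⟩
  have hf0 : f0 ≠ 0 := by
    intro h
    have := eLpNorm_f0 2 (by norm_num)
    rw [h, eLpNorm_congr_ae (Lp.coeFn_zero _ _ _)] at this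
    simp at this
  have m1 : MemLp f0 (ENNReal.ofReal (2 - σ / 2)) volume :=
    hmem _ (by rw [eLpNorm_f0 _ hpos]; exact ENNReal.one_lt_top)
  have m2 : MemLp (A k f0) (ENNReal.ofReal (2 - σ / 2)) volume :=
    hmem _ (by
      rw [A_apply, U_f0, eLpNorm_smul_E, eLpNorm_f0 _ hpos, mul_one]
      exact enorm_lt_top)
  have h3 : C (2 - σ / 2) ≤ (nrm (2 - σ / 2) f0 * nrm (2 - σ / 2) (A k f0))
      / (nrm 2 f0 * nrm 2 (A k f0)) := (hadm (2 - σ / 2) ⟨hp0.1, hp0.2.le⟩).2 f0 hf0 m1 m2
  rw [quotient_f0 k hk _ hpos] at h3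
  linarith

/-- **No regular choice of admissible constants.** For every `0 < k ≤ 1` there is a special
`k`-Hadamard operator on `ℝ` without a regular choice of admissible constants. -/
theorem result : ∀ k : ℝ, 0 < k → k ≤ 1 →
    ∃ A : Op, IsSpecialHadamard k A ∧ ¬ HasRegularChoice A :=
  fun k hk hk1 => ⟨A k, special k hk hk1, no_choice k hk⟩

end Pool.Agent.Results.MP_977787_an.NoRegularChoice
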